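import Pool.Agent.Helper18.PB.Defs

set_option autoImplicit false

open MeasureTheory Measure Set Metric
open Pool.Agent.Helper18.PB
open Pool.Agent.Helper63.PropB (imBall isCompact_imBall neg_mem_imBall opNorm_le_of_imBall
  contact_not_null)

namespace Pool.Agent.Helper4.PB

universe u v

theorem e2 : GGap.{v} → GInit.{u, v} := by
  intro hgap X _ _ Y _ _ _ _ _ T Z ρ hT hρ hZ
  set C : Set Y := imBall T with hC
  have hCc : IsCompact C := isCompact_imBall T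
  have hne : ∃ z ∈ C, z ≠ 0 := by
    by_contra hcon
    push Not at hcon
    apply hT
    have h1 := opNorm_le_of_imBall T (ContinuousLinearMap.id ℝ Y) le_rfl
      (fun z hz => by rw [hcon z hz]; simp)
    rw [ContinuousLinearMap.id_comp] at h1
    exact norm_le_zero_iff.1 h1
  set d := Module.finrank ℝ (Y →L[ℝ] Y) with hd
  let τ : (Y →L[ℝ] Y) ≃L[ℝ] EuclideanSpace ℝ (Fin d) := toEuclidean
  set c : ℝ := ‖(τ.symm : EuclideanSpace ℝ (Fin d) →L[ℝ] (Y →L[ℝ] Y))‖ + 1 with hc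
  have hc0 : 0 < c := by positivity
  have hτ : ∀ w, ‖τ.symm w‖ ≤ c * ‖w‖ := by
    intro w
    refine ((τ.symm : EuclideanSpace ℝ (Fin d) →L[ℝ] (Y →L[ℝ] Y)).le_opNorm w).trans ?_
    gcongr
    rw [hc]
    linarith
  set t : ℝ := min (1 / 8) (ρ / 4) with ht
  have ht0 : 0 < t := lt_min (by norm_num) (by positivity)
  have ht8 : t ≤ 1 / 8 := min_le_left _ _
  have htρ : t ≤ ρ / 4 := min_le_right _ _
  set r : ℝ := t / c with hr
  have hr0 : 0 < r := by positivity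
  have hcr : c * r = t := by rw [hr]; field_simp
  set K : ℝ := 4 * c / r with hK
  have hK0 : 0 < K := by positivity
  have hKr : K * r ^ 2 = 4 * t := by
    rw [← hcr, hK]; field_simp
  have hKv : ∀ w : EuclideanSpace ℝ (Fin d), ‖w‖ ≤ r → 1 / 2 ≤ 1 - K * ‖w‖ ^ 2 := by
    intro w hw
    have h1 : K * ‖w‖ ^ 2 ≤ K * r ^ 2 := by gcongr
    rw [hKr] at h1
    linarith
  set Φ : EuclideanSpace ℝ (Fin d) × Y → Y :=
    fun x => (1 - K * ‖x.1‖ ^ 2) • (x.2 + τ.symm x.1 x.2) with hΦ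
  have hΦc : Continuous Φ := by
    have h1 : Continuous (fun x : EuclideanSpace ℝ (Fin d) × Y => τ.symm x.1 x.2) :=
      (τ.symm.continuous.comp continuous_fst).clm_apply continuous_snd
    simp only [hΦ]
    fun_prop
  set CK : Set Y := Φ '' (closedBall 0 r ×ˢ C) with hCK
  have hCKc : IsCompact CK := ((isCompact_closedBall _ _).prod hCc).image hΦc
  have hmem : ∀ w : EuclideanSpace ℝ (Fin d), ‖w‖ ≤ r → ∀ z ∈ C,
      (1 - K * ‖w‖ ^ 2) • (z + τ.symm w z) ∈ CK := by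
    intro w hw z hz
    exact ⟨(w, z), ⟨mem_closedBall_zero_iff.2 hw, hz⟩, rfl⟩
  have hmem0 : ∀ z ∈ C, z ∈ CK := by
    intro z hz
    have := hmem 0 (by simpa using hr0.le) z hz
    simpa using this
  have hsym : ∀ z ∈ CK, -z ∈ CK := by
    rintro _ ⟨⟨w, z⟩, ⟨hw, hz⟩, rfl⟩
    refine ⟨(w, -z), ⟨hw, neg_mem_imBall T hz⟩, ?_⟩
    simp only [hΦ, map_neg]
    rw [← neg_add, smul_neg]
  have hneK : ∃ z ∈ CK, z ≠ 0 := by
    obtain ⟨z, hz, h0⟩ := hne
    exact ⟨z, hmem0 z hz, h0⟩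
  set ρ₁ : ℝ := min (ρ / 2) (1 / 2) with hρ₁
  have hρ₁0 : 0 < ρ₁ := lt_min (by positivity) (by norm_num)
  have hpos := contact_not_null hCKc hsym hneK hρ₁0
  obtain ⟨p, ⟨hp, A, hA, zK, hzK, hAz, hmax⟩, hpZ⟩ : ∃ p, p ∈ {y : Y | ‖y‖ = 1 ∧
      ∃ A : Y →L[ℝ] Y, ‖A - ContinuousLinearMap.id ℝ Y‖ < ρ₁ ∧ ∃ z ∈ CK, A z = ‖A z‖ • y ∧
      ∀ z' ∈ CK, ‖A z'‖ ≤ ‖A z‖} ∧ p ∉ Z := by
    by_contra hcon
    push Not at hcon
    exact hpos (measure_mono_null hcon hZ)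
  obtain ⟨⟨w, z⟩, ⟨hw, hz⟩, rfl⟩ := hzK
  simp only at hw hz
  have hwr : ‖w‖ ≤ r := mem_closedBall_zero_iff.1 hw
  have hA2 : ‖A - ContinuousLinearMap.id ℝ Y‖ ≤ 1 / 2 := hA.le.trans (min_le_right _ _)
  have hAρ : ‖A - ContinuousLinearMap.id ℝ Y‖ < ρ / 2 := lt_of_lt_of_le hA (min_le_left _ _)
  have hAn : ‖A‖ ≤ 3 / 2 := by
    have h1 : A = (A - ContinuousLinearMap.id ℝ Y) + ContinuousLinearMap.id ℝ Y := by abel
    rw [h1]
    refine (norm_add_le _ _).trans ?_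
    have h2 := ContinuousLinearMap.norm_id_le (𝕜 := ℝ) (E := Y)
    linarith
  have hAlow : ∀ y : Y, ‖y‖ ≤ 2 * ‖A y‖ := by
    intro y
    have h1 : y = A y - (A - ContinuousLinearMap.id ℝ Y) y := by simp
    have h2 : ‖(A - ContinuousLinearMap.id ℝ Y) y‖ ≤ 1 / 2 * ‖y‖ :=
      ((A - ContinuousLinearMap.id ℝ Y).le_opNorm y).trans (by gcongr)
    have h3 : ‖y‖ ≤ ‖A y‖ + ‖(A - ContinuousLinearMap.id ℝ Y) y‖ := by
      conv_lhs => rw [h1]
      exact norm_sub_le _ _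
    linarith
  -- the maximal value
  have hfac := hKv w hwr
  have hfac0 : 0 < 1 - K * ‖w‖ ^ 2 := by linarith
  have hval : ∀ w' : EuclideanSpace ℝ (Fin d), ‖w'‖ ≤ r → ∀ z' ∈ C,
      (1 - K * ‖w'‖ ^ 2) * ‖A (z' + τ.symm w' z')‖ ≤ (1 - K * ‖w‖ ^ 2) * ‖A (z + τ.symm w z)‖ := by
    intro w' hw' z' hz'
    have h1 := hmax _ (hmem w' hw' z' hz')
    simp only [hΦ] at h1
    rw [map_smul, map_smul, norm_smul, norm_smul, Real.norm_of_nonneg hfac0.le,
      Real.norm_of_nonneg (by linarith [hKv w' hw'])] at h1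
    exact h1
  set W : ℝ := (1 - K * ‖w‖ ^ 2) * ‖A (z + τ.symm w z)‖ with hW
  have hval0 : ∀ z' ∈ C, ‖A z'‖ ≤ W := by
    intro z' hz'
    have := hval 0 (by simpa using hr0.le) z' hz'
    simpa using this
  have hWpos : 0 < W := by
    obtain ⟨z0, hz0, h0⟩ := hne
    have h1 := hval0 z0 hz0
    have h2 := hAlow z0
    have h3 : 0 < ‖z0‖ := norm_pos_iff.2 h0
    linarith
  have hmpos : 0 < ‖A (z + τ.symm w z)‖ := by
    rw [hW] at hWpos
    exact (mul_pos_iff_of_pos_left hfac0).1 hWpos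
  have hDw : ‖τ.symm w‖ ≤ t := by
    calc ‖τ.symm w‖ ≤ c * ‖w‖ := hτ w
      _ ≤ c * r := by gcongr
      _ = t := hcr
  have hwlt : ‖w‖ < r := by
    refine lt_of_le_of_ne hwr (fun he => ?_)
    have h1 : ‖A (z + τ.symm w z)‖ ≤ (1 + 3 * t) * W := by
      rw [map_add]
      have h2 : ‖A (τ.symm w z)‖ ≤ 3 / 2 * (t * (2 * W)) := by
        calc ‖A (τ.symm w z)‖ ≤ ‖A‖ * ‖τ.symm w z‖ := A.le_opNorm _
          _ ≤ 3 / 2 * (t * (2 * W)) := by
              gcongr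
              calc ‖τ.symm w z‖ ≤ ‖τ.symm w‖ * ‖z‖ := (τ.symm w).le_opNorm z
                _ ≤ t * (2 * W) := by
                    gcongr
                    exact (hAlow z).trans (by gcongr; exact hval0 z hz)
      refine (norm_add_le _ _).trans ?_
      have h3 := hval0 z hz
      linarith
    have h4 : W ≤ (1 - 4 * t) * ((1 + 3 * t) * W) := by
      have h5 : 1 - K * ‖w‖ ^ 2 = 1 - 4 * t := by rw [he, hKr]
      conv_lhs => rw [hW]
      rw [h5]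
      have h6 : 0 ≤ 1 - 4 * t := by linarith
      exact mul_le_mul_of_nonneg_left h1 h6
    nlinarith [mul_pos ht0 hWpos, mul_pos (mul_pos ht0 ht0) hWpos]
  have hz0 : z ≠ 0 := by
    rintro rfl
    simp at hmpos
  obtain ⟨κ, hκ, hk⟩ := hgap Y d τ C A K r w z hCc.isBounded hA2 hK0 hr0
    (by rw [hKr]; linarith) hwlt (by linarith) hz hz0 hval
  -- the operator
  set A' : Y →L[ℝ] Y := A.comp (ContinuousLinearMap.id ℝ Y + τ.symm w) with hA'
  have hA'a : ∀ y, A' y = A (y + τ.symm w y) := fun y => rfl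
  set m : ℝ := ‖A (z + τ.symm w z)‖ with hm
  have hA'z : A' z = m • p := by
    simp only [hΦ] at hAz
    rw [map_smul, norm_smul, Real.norm_of_nonneg hfac0.le, mul_smul] at hAz
    exact smul_right_injective Y hfac0.ne' hAz
  refine ⟨A', p, m, κ, ?_, hp, hpZ, hmpos, hκ, ?_, ?_⟩
  · have h1 : A' - ContinuousLinearMap.id ℝ Y
        = (A - ContinuousLinearMap.id ℝ Y) + A.comp (τ.symm w) := by
      ext y
      simp [hA']
      abel
    rw [h1]
    have h2 : ‖A.comp (τ.symm w)‖ ≤ 3 / 2 * t := by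
      refine (ContinuousLinearMap.opNorm_comp_le _ _).trans ?_
      gcongr
    refine (norm_add_le _ _).trans_lt ?_
    linarith
  · intro x hx
    have hxC : T x ∈ C := subset_closure ⟨x, mem_closedBall_zero_iff.2 hx, rfl⟩
    have h1 := hk (T x) hxC
    rw [← hA'a, ← hA'a, hA'z] at h1
    exact h1
  · intro δ hδ
    have hzC : z ∈ closure (T '' closedBall (0 : X) 1) := hz
    rw [Metric.mem_closure_iff] at hzC
    obtain ⟨_, ⟨x, hx, rfl⟩, hdist⟩ := hzC (δ / (‖A'‖ + 1)) (by positivity)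
    refine ⟨x, mem_closedBall_zero_iff.1 hx, ?_⟩
    rw [← hA'z, ← map_sub]
    rw [dist_comm, dist_eq_norm] at hdist
    calc ‖A' (T x - z)‖ ≤ ‖A'‖ * ‖T x - z‖ := A'.le_opNorm _
      _ ≤ ‖A'‖ * (δ / (‖A'‖ + 1)) := by gcongr
      _ < (‖A'‖ + 1) * (δ / (‖A'‖ + 1)) := by
          have : 0 < δ / (‖A'‖ + 1) := by positivity
          nlinarith
      _ = δ := by field_simp

end Pool.Agent.Helper4.PB
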